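import Pool.Agent.Q18.HC.Stm

/-!
# Exactness of the truncated complex (MP_3ca9d5_al)

The complex of the alternating functions on the cliques of a graph, with values in a graded
abelian group, whose differential is the difference of the twisted boundary (degree one) and of
the boundary (degree zero).  Both boundaries are exact, so that every exactness statement holds
with bounds on the degrees.
-/

set_option autoImplicit false

namespace Pool.Agent.U213.HC

open Pool.Agent.W326.DU Pool.Agent.Y66.HC Pool.Agent.Q18.HC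

section abs

variable {B C : Type} [AddCommGroup B] [AddCommGroup C]

/-- moving an element into the degrees `≤ b` -/
theorem top_abs (P : B → Prop)
    (d u : B →+ C) (q : ℤ → B →+ B) (r : ℤ → C →+ C)
    (hP : ∀ x y, P x → P y → P (x - y)) (hPq : ∀ n x, P x → P (q n x))
    (hidem : ∀ n x, q n (q n x) = q n x) (horth : ∀ m n x, m ≠ n → q m (q n x) = 0)
    (hd : ∀ n x, r n (d x) = d (q n x)) (hu : ∀ n x, r (n + 1) (u x) = u (q n x))
    (htop : ∀ n x, P x → u (q n x) = 0 → ∃ e, P e ∧ u (q n x - e) - d (q n x - e) = 0 ∧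
      ∀ m, m ≠ n - 1 → q m e = 0)
    (b : ℤ) (k : ℕ) : ∀ y : B, P y → (∀ n, b + k < n → q n y = 0) →
      (∀ n, b + 1 < n → r n (u y - d y) = 0) →
      ∃ y', P y' ∧ u y' - d y' = u y - d y ∧ ∀ n, b < n → q n y' = 0 := by
  induction k with
  | zero =>
    intro y hy h1 _
    exact ⟨y, hy, rfl, fun n hn => h1 n (by simpa using hn)⟩
  | succ k ih =>
    intro y hy h1 h2
    have hN : u (q (b + k + 1) y) = 0 := by
      have h3 := h2 (b + k + 1 + 1) (by omega)
      rw [map_sub, hu, hd, h1 (b + k + 1 + 1) (by push_cast; omega), map_zero, sub_zero] at h3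
      exact h3
    obtain ⟨e, he1, he2, he3⟩ := htop _ _ hy hN
    have h4 : u (y - (q (b + k + 1) y - e)) - d (y - (q (b + k + 1) y - e)) = u y - d y := by
      rw [map_sub u y, map_sub d y, sub_sub_sub_comm, he2, sub_zero]
    obtain ⟨y', h5, h6, h7⟩ := ih (y - (q (b + k + 1) y - e))
      (hP _ _ hy (hP _ _ (hPq _ _ hy) he1)) (fun n hn => by
        rw [map_sub, map_sub, he3 n (by omega), sub_zero]
        rcases eq_or_ne n (b + k + 1) with rfl | h
        · rw [hidem, sub_self]
        · rw [horth _ _ _ h, sub_zero]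
          exact h1 n (by push_cast; omega)) (fun n hn => by rw [h4]; exact h2 n hn)
    exact ⟨y', h5, h6.trans h4, h7⟩

/-- moving an element into the degrees `≥ a` -/
theorem bot_abs (P : B → Prop)
    (d u : B →+ C) (q : ℤ → B →+ B) (r : ℤ → C →+ C)
    (hP : ∀ x y, P x → P y → P (x - y)) (hPq : ∀ n x, P x → P (q n x))
    (hidem : ∀ n x, q n (q n x) = q n x) (horth : ∀ m n x, m ≠ n → q m (q n x) = 0)
    (hd : ∀ n x, r n (d x) = d (q n x)) (hu : ∀ n x, r (n + 1) (u x) = u (q n x))
    (hbot : ∀ n x, P x → d (q n x) = 0 → ∃ e, P e ∧ u (q n x - e) - d (q n x - e) = 0 ∧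
      ∀ m, m ≠ n + 1 → q m e = 0)
    (a b : ℤ) (hab : a ≤ b) (k : ℕ) : ∀ y : B, P y → (∀ n, b < n → q n y = 0) →
      (∀ n, n < a - k → q n y = 0) → (∀ n, n < a → r n (u y - d y) = 0) →
      ∃ y', P y' ∧ u y' - d y' = u y - d y ∧ ∀ n, (n < a ∨ b < n) → q n y' = 0 := by
  induction k with
  | zero =>
    intro y hy h0 h1 _
    exact ⟨y, hy, rfl, fun n hn => hn.elim (fun h => h1 n (by simpa using h)) (h0 n)⟩
  | succ k ih =>
    intro y hy h0 h1 h2
    have hN : d (q (a - k - 1) y) = 0 := by
      have h3 := h2 (a - k - 1) (by omega)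
      have h4 := hu (a - k - 1 - 1) y
      rw [sub_add_cancel, h1 (a - k - 1 - 1) (by push_cast; omega), map_zero] at h4
      rw [map_sub, h4, hd, zero_sub, neg_eq_zero] at h3
      exact h3
    obtain ⟨e, he1, he2, he3⟩ := hbot _ _ hy hN
    have h4 : u (y - (q (a - k - 1) y - e)) - d (y - (q (a - k - 1) y - e)) = u y - d y := by
      rw [map_sub u y, map_sub d y, sub_sub_sub_comm, he2, sub_zero]
    obtain ⟨y', h5, h6, h7⟩ := ih (y - (q (a - k - 1) y - e))
      (hP _ _ hy (hP _ _ (hPq _ _ hy) he1)) (fun n hn => by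
        rw [map_sub, map_sub, he3 n (by omega), horth _ _ _ (by omega), h0 n hn]
        simp) (fun n hn => by
        rw [map_sub, map_sub, he3 n (by omega), sub_zero]
        rcases eq_or_ne n (a - k - 1) with rfl | h
        · rw [hidem, sub_self]
        · rw [horth _ _ _ h, sub_zero]
          exact h1 n (by push_cast; omega)) (fun n hn => by rw [h4]; exact h2 n hn)
    exact ⟨y', h5, h6.trans h4, h7⟩

/-- truncation on both sides -/
theorem trunc_abs (P : B → Prop)
    (d u : B →+ C) (q : ℤ → B →+ B) (r : ℤ → C →+ C)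
    (hP : ∀ x y, P x → P y → P (x - y)) (hPq : ∀ n x, P x → P (q n x))
    (hidem : ∀ n x, q n (q n x) = q n x) (horth : ∀ m n x, m ≠ n → q m (q n x) = 0)
    (hfin : ∀ x, ∃ k : ℕ, ∀ n : ℤ, (n < -k ∨ (k : ℤ) < n) → q n x = 0)
    (hd : ∀ n x, r n (d x) = d (q n x)) (hu : ∀ n x, r (n + 1) (u x) = u (q n x))
    (htop : ∀ n x, P x → u (q n x) = 0 → ∃ e, P e ∧ u (q n x - e) - d (q n x - e) = 0 ∧
      ∀ m, m ≠ n - 1 → q m e = 0)
    (hbot : ∀ n x, P x → d (q n x) = 0 → ∃ e, P e ∧ u (q n x - e) - d (q n x - e) = 0 ∧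
      ∀ m, m ≠ n + 1 → q m e = 0)
    (a b : ℤ) (hab : a ≤ b) (y : B) (hy : P y)
    (h : ∀ n, (n < a ∨ b + 1 < n) → r n (u y - d y) = 0) :
    ∃ y', P y' ∧ u y' - d y' = u y - d y ∧ ∀ n, (n < a ∨ b < n) → q n y' = 0 := by
  obtain ⟨k, hk⟩ := hfin y
  obtain ⟨y1, h1, h2, h3⟩ := top_abs P d u q r hP hPq hidem horth hd hu htop b
    (k + b.natAbs) y hy (fun n hn => hk n (by right; omega))
    (fun n hn => h n (Or.inr hn))
  obtain ⟨k', hk'⟩ := hfin y1
  obtain ⟨y2, h4, h5, h6⟩ := bot_abs P d u q r hP hPq hidem horth hd hu hbot a b hab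
    (k' + a.natAbs) y1 h1 h3 (fun n hn => hk' n (by left; omega))
    (fun n hn => by rw [h2]; exact h n (Or.inl hn))
  exact ⟨y2, h4, h5.trans h2, h6⟩

end abs

variable {V M : Type} [Fintype V] [AddCommGroup M] {ad : V → V → Prop} {U U' : V → M →+ M}
  {p : ℤ → M →+ M}

omit [Fintype V] in
theorem comm' (hG : Grad ad U U' p) {a b : V} (h : ad a b) (x : M) :
    U' a (U' b x) = U' b (U' a x) := by
  have h1 : ∀ w : M, U' b (U' a (U a (U b w))) = w := fun w => by rw [hG.inv2, hG.inv2]
  have h2 : U a (U b (U' a (U' b x))) = x := by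
    rw [hG.comm a b h, hG.inv1, hG.inv1]
  calc U' a (U' b x) = U' b (U' a (U a (U b (U' a (U' b x))))) := (h1 _).symm
    _ = U' b (U' a x) := by rw [h2]

omit [Fintype V] in
/-- the diagonal vanishes -/
theorem alt2_ne (hi : ∀ a, ¬ ad a a) {y : V → V → M} (hy : IsAlt2 ad Set.univ y) (a : V) :
    y a a = 0 := hy.2 a a fun h => hi a h.2.2

/-- an antisymmetric double sum vanishes -/
theorem sum_anti (f : V → V → M) (h1 : ∀ a b, f a b + f b a = 0) (h2 : ∀ a, f a a = 0) :
    ∑ a, ∑ b, f a b = 0 := by
  classical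
  rw [← Finset.sum_product']
  refine Finset.sum_involution (fun x _ => (x.2, x.1)) (fun x _ => h1 x.1 x.2) ?_
    (fun x _ => Finset.mem_univ _) (fun x _ => rfl)
  rintro ⟨a, b⟩ _ hne heq
  simp only [Prod.mk.injEq] at heq
  obtain ⟨rfl, _⟩ := heq
  exact hne (h2 _)

/-- the square of the differential vanishes -/
theorem dd (hG : Grad ad U U' p) (hi : ∀ a, ¬ ad a a) (f : V → V → M)
    (h1 : ∀ a b, f a b = - f b a) (h2 : ∀ a b, ¬ ad a b → f a b = 0) :
    ∑ b, (U b (∑ a, (U a (f a b) - f a b)) - ∑ a, (U a (f a b) - f a b)) = 0 := by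
  have h3 : ∀ b, (U b (∑ a, (U a (f a b) - f a b)) - ∑ a, (U a (f a b) - f a b)) =
      ∑ a, (U b (U a (f a b)) - U b (f a b) - U a (f a b) + f a b) := by
    intro b
    rw [map_sum, ← Finset.sum_sub_distrib]
    refine Finset.sum_congr rfl fun a _ => ?_
    rw [map_sub]
    abel
  simp only [h3]
  refine sum_anti _ (fun b a => ?_) (fun a => ?_)
  · by_cases hab : ad a b
    · rw [h1 b a]
      simp only [map_neg, hG.comm a b hab]
      abel
    · rw [h1 b a, h2 a b hab]
      simp
  · rw [h2 a a (hi a)]
    simp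

section twist

variable (hA : Acyc ad) (hG : Grad ad U U' p)
include hA hG

theorem tu1 (x : V → M) (h : ∑ v, U v (x v) = 0) :
    ∃ y, IsAlt2 ad Set.univ y ∧ ∀ b, x b = ∑ a, U a (y a b) := by
  obtain ⟨y, ⟨hy1, hy2⟩, hy3⟩ := hA.ac1 M (fun v => U v (x v)) h
  refine ⟨fun a b => U' a (U' b (y a b)), ⟨fun a b => ?_, fun a b hab => ?_⟩, fun b => ?_⟩
  · by_cases hab : ad a b
    · show U' a (U' b (y a b)) = - U' b (U' a (y b a))
      rw [comm' hG hab, hy1 a b, map_neg, map_neg]
    · have h0 : y a b = 0 := hy2 a b fun h => hab h.2.2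
      have h0' : y b a = 0 := by rw [hy1, h0, neg_zero]
      show U' a (U' b (y a b)) = - U' b (U' a (y b a))
      rw [h0, h0']
      simp
  · show U' a (U' b (y a b)) = 0
    rw [hy2 a b hab]
    simp
  · show x b = ∑ a, U a (U' a (U' b (y a b)))
    simp only [hG.inv1]
    rw [← map_sum, ← hy3, hG.inv2]

theorem tu2 (y : V → V → M) (hy : IsAlt2 ad Set.univ y) (h : ∀ b, ∑ a, U a (y a b) = 0) :
    ∃ z, IsAlt3 ad Set.univ z ∧ ∀ b c, y b c = ∑ a, U a (z a b c) := by
  obtain ⟨hy1, hy2⟩ := hy
  have hy2' : ∀ a b, ¬ ad a b → y a b = 0 := fun a b hab => hy2 a b fun h => hab h.2.2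
  obtain ⟨z, ⟨hz1, hz2, hz3⟩, hz4⟩ := hA.ac2 M (fun a b => U a (U b (y a b)))
    ⟨fun a b => by
      by_cases hab : ad a b
      · show U a (U b (y a b)) = - U b (U a (y b a))
        rw [hG.comm a b hab, hy1 a b, map_neg, map_neg]
      · have h0 : y a b = 0 := hy2' a b hab
        have h0' : y b a = 0 := by rw [hy1, h0, neg_zero]
        show U a (U b (y a b)) = - U b (U a (y b a))
        rw [h0, h0']
        simp, fun a b hab => by
      show U a (U b (y a b)) = 0
      rw [hy2 a b hab]
      simp⟩ (fun b => by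
    have h3 : ∀ a, U a (U b (y a b)) = U b (U a (y a b)) := fun a => by
      by_cases hab : ad a b
      · exact hG.comm a b hab _
      · rw [hy2' a b hab]
        simp
    show ∑ a, U a (U b (y a b)) = 0
    simp only [h3]
    rw [← map_sum, h b, map_zero])
  refine ⟨fun a b c => U' a (U' b (U' c (z a b c))), ⟨fun a b c => ?_, fun a b c => ?_,
    fun a b c habc => ?_⟩, fun b c => ?_⟩
  · show U' a (U' b (U' c (z a b c))) = - U' b (U' a (U' c (z b a c)))
    by_cases hab : ad a b
    · rw [comm' hG hab, hz1 a b c]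
      simp only [map_neg]
    · have h0 : z a b c = 0 := hz3 a b c fun h => hab h.2.2.2.1
      have h0' : z b a c = 0 := by rw [hz1, h0, neg_zero]
      rw [h0, h0']
      simp
  · show U' a (U' b (U' c (z a b c))) = - U' a (U' c (U' b (z a c b)))
    by_cases hbc : ad b c
    · rw [comm' hG hbc, hz2 a b c]
      simp only [map_neg]
    · have h0 : z a b c = 0 := hz3 a b c fun h => hbc h.2.2.2.2.1
      have h0' : z a c b = 0 := by rw [hz2, h0, neg_zero]
      rw [h0, h0']
      simp
  · show U' a (U' b (U' c (z a b c))) = 0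
    rw [hz3 a b c habc]
    simp
  · show y b c = ∑ a, U a (U' a (U' b (U' c (z a b c))))
    simp only [hG.inv1]
    rw [← map_sum, ← map_sum, ← hz4]
    by_cases hbc : ad b c
    · rw [hG.comm b c hbc, hG.inv2, hG.inv2]
    · rw [hy2' b c hbc]
      simp

theorem tu3 (z : V → V → V → M) (hz : IsAlt3 ad Set.univ z) (h : ∀ b c, ∑ a, U a (z a b c) = 0) :
    ∀ a b c, z a b c = 0 := by
  obtain ⟨hz1, hz2, hz3⟩ := hz
  have key := hA.ac3 M (fun a b c => U a (U b (U c (z a b c)))) ⟨fun a b c => by
      show U a (U b (U c (z a b c))) = - U b (U a (U c (z b a c)))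
      by_cases hab : ad a b
      · rw [hG.comm a b hab, hz1 a b c]
        simp only [map_neg]
      · have h0 : z a b c = 0 := hz3 a b c fun h => hab h.2.2.2.1
        have h0' : z b a c = 0 := by rw [hz1, h0, neg_zero]
        rw [h0, h0']
        simp, fun a b c => by
      show U a (U b (U c (z a b c))) = - U a (U c (U b (z a c b)))
      by_cases hbc : ad b c
      · rw [hG.comm b c hbc, hz2 a b c]
        simp only [map_neg]
      · have h0 : z a b c = 0 := hz3 a b c fun h => hbc h.2.2.2.2.1
        have h0' : z a c b = 0 := by rw [hz2, h0, neg_zero]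
        rw [h0, h0']
        simp, fun a b c habc => by
      show U a (U b (U c (z a b c))) = 0
      rw [hz3 a b c habc]
      simp⟩ (fun b c => by
    have h3 : ∀ a, U a (U b (U c (z a b c))) = U b (U c (U a (z a b c))) := fun a => by
      by_cases habc : ad a b ∧ ad b c ∧ ad a c
      · rw [hG.comm a b habc.1, hG.comm a c habc.2.2]
      · have h0 : z a b c = 0 := hz3 a b c fun h => habc h.2.2.2
        rw [h0]
        simp
    show ∑ a, U a (U b (U c (z a b c))) = 0
    simp only [h3]
    rw [← map_sum, ← map_sum, h b c, map_zero, map_zero])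
  intro a b c
  have h1 : U a (U b (U c (z a b c))) = 0 := key a b c
  calc z a b c = U' c (U' b (U' a (U a (U b (U c (z a b c)))))) := by
        rw [hG.inv2, hG.inv2, hG.inv2]
    _ = 0 := by rw [h1]; simp

end twist

/-- the level-one truncation -/
theorem t1 (hA : Acyc ad) (hG : Grad ad U U' p) (hi : ∀ a, ¬ ad a a) (y : V → M)
    (h : Sup p 0 2 (∑ v, (U v (y v) - y v))) :
    ∃ y' : V → M, (∀ v, Sup p 0 1 (y' v)) ∧ ∑ v, (U v (y' v) - y' v) = ∑ v, (U v (y v) - y v) := by
  have hDe : ∀ w : V → M, (∑ v, U v (w v)) - ∑ v, w v = ∑ v, (U v (w v) - w v) := fun w =>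
    (Finset.sum_sub_distrib _ _).symm
  let d : (V → M) →+ M :=
    { toFun := fun w => ∑ v, w v
      map_zero' := by simp
      map_add' := fun x y => by simp [Finset.sum_add_distrib] }
  let u : (V → M) →+ M :=
    { toFun := fun w => ∑ v, U v (w v)
      map_zero' := by simp
      map_add' := fun x y => by simp [Finset.sum_add_distrib] }
  let q : ℤ → (V → M) →+ (V → M) := fun n =>
    { toFun := fun w v => p n (w v)
      map_zero' := by funext v; simp
      map_add' := fun x y => by funext v; simp }
  obtain ⟨y', -, h1, h2⟩ := trunc_abs (fun _ => True) d u q p (fun _ _ _ _ => trivial)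
    (fun _ _ _ => trivial) (fun n x => funext fun v => hG.idem n (x v))
    (fun m n x hmn => funext fun v => hG.orth m n (x v) hmn)
    (fun x => by
      choose k hk using fun v => hG.fin (x v)
      refine ⟨Finset.univ.sup k, fun n hn => funext fun v => hk v n ?_⟩
      have h1 : k v ≤ Finset.univ.sup k := Finset.le_sup (Finset.mem_univ v)
      rcases hn with hn | hn
      · left; omega
      · right; omega)
    (fun n x => map_sum _ _ _)
    (fun n x => by
      show p (n + 1) (∑ v, U v (x v)) = ∑ v, U v (p n (x v))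
      rw [map_sum]
      exact Finset.sum_congr rfl fun v _ => hG.deg v n _)
    (fun n x _ hx => by
      obtain ⟨z, hz1, hz2⟩ := tu1 hA hG (fun v => p n (x v)) hx
      have hz1' : IsAlt2 ad Set.univ (fun a b => p (n - 1) (z a b)) :=
        ⟨fun a b => by
          show p (n - 1) (z a b) = - p (n - 1) (z b a)
          rw [hz1.1 a b, map_neg], fun a b hab => by
          show p (n - 1) (z a b) = 0
          rw [hz1.2 a b hab, map_zero]⟩
      refine ⟨fun b => ∑ a, p (n - 1) (z a b), trivial, ?_, fun m hm => funext fun b => ?_⟩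
      · have h3 : q n x - (fun b => ∑ a, p (n - 1) (z a b)) =
            fun b => ∑ a, (U a (p (n - 1) (z a b)) - p (n - 1) (z a b)) := by
          funext b
          rw [Finset.sum_sub_distrib]
          show p n (x b) - _ = _
          congr 1
          calc p n (x b) = p n (p n (x b)) := (hG.idem n _).symm
            _ = p n (∑ a, U a (z a b)) := by rw [← hz2 b]
            _ = ∑ a, U a (p (n - 1) (z a b)) := by
              rw [map_sum]
              refine Finset.sum_congr rfl fun a _ => ?_
              rw [← hG.deg a (n - 1), sub_add_cancel]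
        rw [h3]
        exact (hDe _).trans (dd hG hi _ hz1'.1 fun a b hab => hz1'.2 a b fun h => hab h.2.2)
      · show p m (∑ a, p (n - 1) (z a b)) = 0
        rw [map_sum]
        exact Finset.sum_eq_zero fun a _ => hG.orth _ _ _ hm)
    (fun n x _ hx => by
      obtain ⟨z, hz1, hz2⟩ := hA.ac1 M (fun v => p n (x v)) hx
      have hz1' : IsAlt2 ad Set.univ (fun a b => - p n (z a b)) :=
        ⟨fun a b => by
          show - p n (z a b) = - - p n (z b a)
          rw [hz1.1 a b, map_neg], fun a b hab => by
          show - p n (z a b) = 0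
          rw [hz1.2 a b hab, map_zero, neg_zero]⟩
      refine ⟨fun b => ∑ a, U a (p n (z a b)), trivial, ?_, fun m hm => funext fun b => ?_⟩
      · have h3 : q n x - (fun b => ∑ a, U a (p n (z a b))) =
            fun b => ∑ a, (U a (- p n (z a b)) - (- p n (z a b))) := by
          funext b
          simp only [map_neg, sub_neg_eq_add, Finset.sum_add_distrib, Finset.sum_neg_distrib]
          rw [neg_add_eq_sub]
          show p n (x b) - _ = _
          congr 1
          calc p n (x b) = p n (p n (x b)) := (hG.idem n _).symm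
            _ = p n (∑ a, z a b) := by rw [← hz2 b]
            _ = ∑ a, p n (z a b) := map_sum _ _ _
        rw [h3]
        exact (hDe _).trans (dd hG hi _ hz1'.1 fun a b hab => hz1'.2 a b fun h => hab h.2.2)
      · show p m (∑ a, U a (p n (z a b))) = 0
        rw [map_sum]
        refine Finset.sum_eq_zero fun a _ => ?_
        have h5 := hG.deg a (m - 1) (p n (z a b))
        rw [sub_add_cancel, hG.orth _ _ _ (show m - 1 ≠ n by omega), map_zero] at h5
        exact h5)
    0 1 (by norm_num) y trivial (fun n hn => by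
      rw [show u y - d y = ∑ v, (U v (y v) - y v) from hDe y]
      exact h n (by omega))
  exact ⟨y', fun v n hn => congrFun (h2 n hn) v, by
    rw [← hDe, ← hDe]; exact h1⟩

omit [Fintype V] in
theorem alt2_sub {x y : V → V → M} (hx : IsAlt2 ad Set.univ x) (hy : IsAlt2 ad Set.univ y) :
    IsAlt2 ad Set.univ (x - y) :=
  ⟨fun a b => by
    show x a b - y a b = - (x b a - y b a)
    rw [hx.1 a b, hy.1 a b]; abel, fun a b hab => by
    show x a b - y a b = 0
    rw [hx.2 a b hab, hy.2 a b hab, sub_zero]⟩

omit [Fintype V] in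
theorem alt3_sub {x y : V → V → V → M} (hx : IsAlt3 ad Set.univ x) (hy : IsAlt3 ad Set.univ y) :
    IsAlt3 ad Set.univ (x - y) :=
  ⟨fun a b c => by
    show x a b c - y a b c = - (x b a c - y b a c)
    rw [hx.1 a b c, hy.1 a b c]; abel, fun a b c => by
    show x a b c - y a b c = - (x a c b - y a c b)
    rw [hx.2.1 a b c, hy.2.1 a b c]; abel, fun a b c hab => by
    show x a b c - y a b c = 0
    rw [hx.2.2 a b c hab, hy.2.2 a b c hab, sub_zero]⟩

omit [Fintype V] in
theorem alt2_map {x : V → V → M} (f : M →+ M) (hx : IsAlt2 ad Set.univ x) :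
    IsAlt2 ad Set.univ (fun a b => f (x a b)) :=
  ⟨fun a b => by
    show f (x a b) = - f (x b a)
    rw [hx.1 a b, map_neg], fun a b hab => by
    show f (x a b) = 0
    rw [hx.2 a b hab, map_zero]⟩

omit [Fintype V] in
theorem alt3_map {x : V → V → V → M} (f : M →+ M) (hx : IsAlt3 ad Set.univ x) :
    IsAlt3 ad Set.univ (fun a b c => f (x a b c)) :=
  ⟨fun a b c => by
    show f (x a b c) = - f (x b a c)
    rw [hx.1 a b c, map_neg], fun a b c => by
    show f (x a b c) = - f (x a c b)
    rw [hx.2.1 a b c, map_neg], fun a b c hab => by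
    show f (x a b c) = 0
    rw [hx.2.2 a b c hab, map_zero]⟩

/-- contracting with a family of maps -/
theorem alt2_contr {z : V → V → V → M} (F : V → M →+ M) (hz : IsAlt3 ad Set.univ z) :
    IsAlt2 ad Set.univ (fun b c => ∑ a, F a (z a b c)) :=
  ⟨fun b c => by
    show ∑ a, F a (z a b c) = - ∑ a, F a (z a c b)
    rw [← Finset.sum_neg_distrib]
    exact Finset.sum_congr rfl fun a _ => by rw [hz.2.1 a b c, map_neg], fun b c hbc => by
    refine Finset.sum_eq_zero fun a _ => ?_
    rw [hz.2.2 a b c fun h => hbc ⟨h.2.1, h.2.2.1, h.2.2.2.2.1⟩, map_zero]⟩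

/-- the level-two truncation -/
theorem t2 (hA : Acyc ad) (hG : Grad ad U U' p) (hi : ∀ a, ¬ ad a a) (y : V → V → M)
    (hy : IsAlt2 ad Set.univ y) (h : ∀ b, Sup p 0 1 (∑ a, (U a (y a b) - y a b))) :
    ∃ y' : V → V → M, IsAlt2 ad Set.univ y' ∧ (∀ a b, Sup p 0 0 (y' a b)) ∧
      ∀ b, ∑ a, (U a (y' a b) - y' a b) = ∑ a, (U a (y a b) - y a b) := by
  have hDe : ∀ (w : V → V → M) (b : V), (∑ a, U a (w a b)) - ∑ a, w a b =
      ∑ a, (U a (w a b) - w a b) := fun w b => (Finset.sum_sub_distrib _ _).symm
  let d : (V → V → M) →+ (V → M) :=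
    { toFun := fun w b => ∑ a, w a b
      map_zero' := by funext b; simp
      map_add' := fun x y => by funext b; simp [Finset.sum_add_distrib] }
  let u : (V → V → M) →+ (V → M) :=
    { toFun := fun w b => ∑ a, U a (w a b)
      map_zero' := by funext b; simp
      map_add' := fun x y => by funext b; simp [Finset.sum_add_distrib] }
  let q : ℤ → (V → V → M) →+ (V → V → M) := fun n =>
    { toFun := fun w a b => p n (w a b)
      map_zero' := by funext a b; simp
      map_add' := fun x y => by funext a b; simp }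
  let r : ℤ → (V → M) →+ (V → M) := fun n =>
    { toFun := fun w b => p n (w b)
      map_zero' := by funext b; simp
      map_add' := fun x y => by funext b; simp }
  obtain ⟨y', h0, h1, h2⟩ := trunc_abs (IsAlt2 ad Set.univ) d u q r (fun _ _ h1 h2 => alt2_sub h1 h2)
    (fun n x hx => alt2_map (p n) hx) (fun n x => funext fun a => funext fun b => hG.idem n (x a b))
    (fun m n x hmn => funext fun a => funext fun b => hG.orth m n (x a b) hmn)
    (fun x => by
      choose k hk using fun v : V × V => hG.fin (x v.1 v.2)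
      refine ⟨Finset.univ.sup k, fun n hn => funext fun a => funext fun b => hk (a, b) n ?_⟩
      have h1 : k (a, b) ≤ Finset.univ.sup k := Finset.le_sup (Finset.mem_univ (a, b))
      rcases hn with hn | hn
      · left; omega
      · right; omega)
    (fun n x => funext fun b => show p n (∑ a, x a b) = ∑ a, p n (x a b) from map_sum _ _ _)
    (fun n x => funext fun b => by
      show p (n + 1) (∑ v, U v (x v b)) = ∑ v, U v (p n (x v b))
      rw [map_sum]
      exact Finset.sum_congr rfl fun v _ => hG.deg v n _)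
    (fun n x hx0 hx => by
      obtain ⟨z, hz1, hz2⟩ := tu2 hA hG (fun a b => p n (x a b)) (alt2_map (p n) hx0)
        (fun b => congrFun hx b)
      have hz1' := alt3_map (p (n - 1)) hz1
      refine ⟨fun b c => ∑ a, p (n - 1) (z a b c), ?_, ?_, fun m hm =>
        funext fun b => funext fun c => ?_⟩
      · exact alt2_contr (fun _ => AddMonoidHom.id M) hz1'
      · have h3 : q n x - (fun b c => ∑ a, p (n - 1) (z a b c)) =
            fun b c => ∑ a, (U a (p (n - 1) (z a b c)) - p (n - 1) (z a b c)) := by
          funext b c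
          rw [Finset.sum_sub_distrib]
          show p n (x b c) - _ = _
          congr 1
          calc p n (x b c) = p n (p n (x b c)) := (hG.idem n _).symm
            _ = p n (∑ a, U a (z a b c)) := by rw [← hz2 b c]
            _ = ∑ a, U a (p (n - 1) (z a b c)) := by
              rw [map_sum]
              refine Finset.sum_congr rfl fun a _ => ?_
              rw [← hG.deg a (n - 1), sub_add_cancel]
        rw [h3]
        funext c
        exact (hDe (fun b c => ∑ a, (U a (p (n - 1) (z a b c)) - p (n - 1) (z a b c))) c).trans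
          (dd hG hi (fun a b => p (n - 1) (z a b c)) (fun a b => hz1'.1 a b c)
          fun a b hab => hz1'.2.2 a b c fun h => hab h.2.2.2.1)
      · show p m (∑ a, p (n - 1) (z a b c)) = 0
        rw [map_sum]
        exact Finset.sum_eq_zero fun a _ => hG.orth _ _ _ hm)
    (fun n x hx0 hx => by
      obtain ⟨z, hz1, hz2⟩ := hA.ac2 M (fun a b => p n (x a b)) (alt2_map (p n) hx0)
        (fun b => congrFun hx b)
      have hz1' : IsAlt3 ad Set.univ (fun a b c => - p n (z a b c)) := alt3_map (- p n) hz1
      refine ⟨fun b c => ∑ a, U a (p n (z a b c)), ?_, ?_, fun m hm =>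
        funext fun b => funext fun c => ?_⟩
      · exact alt2_contr U (alt3_map (p n) hz1)
      · have h3 : q n x - (fun b c => ∑ a, U a (p n (z a b c))) =
            fun b c => ∑ a, (U a (- p n (z a b c)) - (- p n (z a b c))) := by
          funext b c
          simp only [map_neg, sub_neg_eq_add, Finset.sum_add_distrib, Finset.sum_neg_distrib]
          rw [neg_add_eq_sub]
          show p n (x b c) - _ = _
          congr 1
          calc p n (x b c) = p n (p n (x b c)) := (hG.idem n _).symm
            _ = p n (∑ a, z a b c) := by rw [← hz2 b c]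
            _ = ∑ a, p n (z a b c) := map_sum _ _ _
        rw [h3]
        funext c
        exact (hDe (fun b c => ∑ a, (U a (- p n (z a b c)) - (- p n (z a b c)))) c).trans
          (dd hG hi (fun a b => - p n (z a b c)) (fun a b => hz1'.1 a b c)
          fun a b hab => hz1'.2.2 a b c fun h => hab h.2.2.2.1)
      · show p m (∑ a, U a (p n (z a b c))) = 0
        rw [map_sum]
        refine Finset.sum_eq_zero fun a _ => ?_
        have h5 := hG.deg a (m - 1) (p n (z a b c))
        rw [sub_add_cancel, hG.orth _ _ _ (show m - 1 ≠ n by omega), map_zero] at h5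
        exact h5)
    0 0 le_rfl y hy (fun n hn => funext fun b => by
      have h6 : (u y - d y) b = ∑ a, (U a (y a b) - y a b) := hDe y b
      show p n ((u y - d y) b) = 0
      rw [h6]
      exact h b n (by omega))
  exact ⟨y', h0, fun a b n hn => congrFun (congrFun (h2 n hn) a) b, fun b => by
    rw [← hDe, ← hDe]; exact congrFun h1 b⟩

/-- the level-three truncation -/
theorem t3 (hA : Acyc ad) (hG : Grad ad U U' p) (z : V → V → V → M)
    (hz : IsAlt3 ad Set.univ z) (h : ∀ b c, Sup p 0 0 (∑ a, (U a (z a b c) - z a b c))) :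
    ∀ b c, ∑ a, (U a (z a b c) - z a b c) = 0 := by
  have hDe : ∀ (w : V → V → V → M) (b c : V), (∑ a, U a (w a b c)) - ∑ a, w a b c =
      ∑ a, (U a (w a b c) - w a b c) := fun w b c => (Finset.sum_sub_distrib _ _).symm
  let d : (V → V → V → M) →+ (V → V → M) :=
    { toFun := fun w b c => ∑ a, w a b c
      map_zero' := by funext b c; simp
      map_add' := fun x y => by funext b c; simp [Finset.sum_add_distrib] }
  let u : (V → V → V → M) →+ (V → V → M) :=
    { toFun := fun w b c => ∑ a, U a (w a b c)
      map_zero' := by funext b c; simp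
      map_add' := fun x y => by funext b c; simp [Finset.sum_add_distrib] }
  let q : ℤ → (V → V → V → M) →+ (V → V → V → M) := fun n =>
    { toFun := fun w a b c => p n (w a b c)
      map_zero' := by funext a b c; simp
      map_add' := fun x y => by funext a b c; simp }
  let r : ℤ → (V → V → M) →+ (V → V → M) := fun n =>
    { toFun := fun w b c => p n (w b c)
      map_zero' := by funext b c; simp
      map_add' := fun x y => by funext b c; simp }
  obtain ⟨z', h0, h1, h2⟩ := trunc_abs (IsAlt3 ad Set.univ) d u q r (fun _ _ h1 h2 => alt3_sub h1 h2)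
    (fun n x hx => alt3_map (p n) hx)
    (fun n x => funext fun a => funext fun b => funext fun c => hG.idem n (x a b c))
    (fun m n x hmn => funext fun a => funext fun b => funext fun c => hG.orth m n (x a b c) hmn)
    (fun x => by
      choose k hk using fun v : V × V × V => hG.fin (x v.1 v.2.1 v.2.2)
      refine ⟨Finset.univ.sup k, fun n hn => funext fun a => funext fun b => funext fun c =>
        hk (a, b, c) n ?_⟩
      have h1 : k (a, b, c) ≤ Finset.univ.sup k := Finset.le_sup (Finset.mem_univ (a, b, c))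
      rcases hn with hn | hn
      · left; omega
      · right; omega)
    (fun n x => funext fun b => funext fun c =>
      show p n (∑ a, x a b c) = ∑ a, p n (x a b c) from map_sum _ _ _)
    (fun n x => funext fun b => funext fun c => by
      show p (n + 1) (∑ v, U v (x v b c)) = ∑ v, U v (p n (x v b c))
      rw [map_sum]
      exact Finset.sum_congr rfl fun v _ => hG.deg v n _)
    (fun n x hx0 hx => by
      have hx' := tu3 hA hG (fun a b c => p n (x a b c)) (alt3_map (p n) hx0)
        (fun b c => congrFun (congrFun hx b) c)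
      have hx'' : q n x = 0 := funext fun a => funext fun b => funext fun c => hx' a b c
      exact ⟨0, ⟨fun _ _ _ => by simp, fun _ _ _ => by simp, fun _ _ _ _ => rfl⟩, by
        rw [hx'']; simp, fun m _ => map_zero _⟩)
    (fun n x hx0 hx => by
      have hx' := hA.ac3 M (fun a b c => p n (x a b c)) (alt3_map (p n) hx0)
        (fun b c => congrFun (congrFun hx b) c)
      have hx'' : q n x = 0 := funext fun a => funext fun b => funext fun c => hx' a b c
      exact ⟨0, ⟨fun _ _ _ => by simp, fun _ _ _ => by simp, fun _ _ _ _ => rfl⟩, by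
        rw [hx'']; simp, fun m _ => map_zero _⟩)
    (-1) (-1) le_rfl z hz (fun n hn => funext fun b => funext fun c => by
      have h6 : (u z - d z) b c = ∑ a, (U a (z a b c) - z a b c) := hDe z b c
      show p n ((u z - d z) b c) = 0
      rw [h6]
      exact h b c n (by omega))
  have h7 : ∀ a b c, p (-1) (z' a b c) = 0 := by
    refine hA.ac3 M (fun a b c => p (-1) (z' a b c)) (alt3_map (p (-1)) h0) fun b c => ?_
    have h8 : (∑ a, U a (z' a b c)) - ∑ a, z' a b c = ∑ a, (U a (z a b c) - z a b c) := by
      rw [← hDe]; exact congrFun (congrFun h1 b) c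
    have h9 : p (-1) ((∑ a, U a (z' a b c)) - ∑ a, z' a b c) = 0 := by
      rw [h8]; exact h b c (-1) (by omega)
    rw [map_sub, map_sum, map_sum, sub_eq_zero] at h9
    rw [← h9]
    refine Finset.sum_eq_zero fun a _ => ?_
    have h10 := hG.deg a (-2) (z' a b c)
    rw [show (-2 : ℤ) + 1 = -1 by norm_num] at h10
    rw [h10, show p (-2) (z' a b c) = 0 from
      congrFun (congrFun (congrFun (h2 (-2) (by omega)) a) b) c, map_zero]
  have h8 : ∀ a b c, z' a b c = 0 := fun a b c => hG.ext _ fun n => by
    rcases eq_or_ne n (-1) with rfl | hn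
    · exact h7 a b c
    · exact congrFun (congrFun (congrFun (h2 n (by omega)) a) b) c
  intro b c
  rw [← hDe]
  refine (congrFun (congrFun h1 b) c).symm.trans ?_
  show (∑ a, U a (z' a b c)) - ∑ a, z' a b c = 0
  simp [h8]

theorem tr : PropTR := by
  intro V M _ _ ad U U' p hs hi hA hG e1 e2
  refine ⟨fun y h => t1 hA hG hi y h, fun x hx h => ?_, fun y hy hy0 h => ?_⟩
  · obtain ⟨y, hy1, hy2⟩ := e1 x h
    obtain ⟨y', h1, h2, h3⟩ := t2 hA hG hi y hy1 fun b => by rw [← hy2 b]; exact hx b
    exact ⟨y', h1, h2, fun b => by rw [h3, ← hy2 b]⟩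
  · obtain ⟨z, hz1, hz2⟩ := e2 y hy h
    intro a b
    rw [hz2 a b]
    exact t3 hA hG z hz1 (fun b c => by rw [← hz2 b c]; exact hy0 b c) a b

end Pool.Agent.U213.HC
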